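import Pool.Agent.R221.BM.Final

set_option autoImplicit false

open MeasureTheory Pool.Agent.R221.BM

namespace Pool.Agent.Results.MP_4f9d30_an.FullDimensionInvariant

/-- Every Bedford-McMullen carpet carries an invariant measure whose Minkowski dimension is the
Minkowski dimension of the carpet. -/
theorem result {m n : ℕ} (hm : 2 ≤ m) (hmn : m < n) (D : Finset (Fin m × Fin n))
    (hD : 2 ≤ D.card) :
    ∃ Λ : Set Plane, (IsCarpet D Λ ∧ ∀ Λ' : Set Plane, IsCarpet D Λ' → Λ' = Λ) ∧
      ∃ ν : Measure (ℕ → D), IsProbabilityMeasure ν ∧ ν.map shift = ν ∧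
        (ν.map coding).support = Λ ∧
        ∃ s : ℝ, HasMinkowskiDim Λ s ∧ measureDim (ν.map coding) = ENNReal.ofReal s := by
  have hn : 2 ≤ n := by omega
  have hD' : D.Nonempty := Finset.card_pos.1 (by omega)
  have hcar := isCarpet_range (D := D) hm hn hD'
  refine ⟨Set.range (coding (D := D)), ⟨hcar, fun Λ' h => carpet_eq_range hm hn h⟩,
    mixMeas D (Pk m n), mixMeas_prob hD' (Pk m n) (fun k => by simp [Pk]),
    map_mixMeas hD' (Pk m n) (fun k => by simp [Pk]), support_mu hm hmn hD' hcar,
    sdim D, hasMinkowskiDim hm hmn hD', measureDim_mu hm hmn hD'⟩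

end Pool.Agent.Results.MP_4f9d30_an.FullDimensionInvariant
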